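import Mathlib
import Pool.Agent.Q15.BergDefs

/-! Cofinality of a clone. -/

namespace Q24.Ury

open Q15Berg Cardinal

/-- `F` is a finitely generated clone. -/
def FinitelyGenerated {A : Type} (F : OpSet A) : Prop :=
  ∃ H : OpSet A, {p : Σ n : ℕ, (Fin (n + 1) → A) → A | p.2 ∈ H p.1}.Finite ∧ Generates H F

/-- `F` is the union of an increasing chain `(C i)`, `i < κ`, of proper subclones of `F`; the index
`i` runs through the ordinals less than the initial ordinal of the cardinal `κ`. -/
def IsChainUnion {A : Type} (F : OpSet A) (κ : Cardinal.{0}) : Prop :=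
  ∃ C : Ordinal.{0} → OpSet A,
    (∀ i < κ.ord, IsClone (C i) ∧ (∀ n, C i n ⊆ F n) ∧ C i ≠ F) ∧
    (∀ i j, i ≤ j → j < κ.ord → ∀ n, C i n ⊆ C j n) ∧
    ∀ n, ∀ f ∈ F n, ∃ i < κ.ord, f ∈ C i n

/-- The cofinality of the clone `F`: the least `κ` such that `F` is the union of an increasing
chain of length `κ` of proper subclones. -/
noncomputable def cofinality {A : Type} (F : OpSet A) : Cardinal.{0} :=
  sInf {κ | IsChainUnion F κ}

end Q24.Ury
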