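import Mathlib
import Pool.Agent.Q15.BergMain
import Pool.Agent.Q24.Ury.Defs

/-! Chains of subclones. -/

namespace Q24.Ury

open Q15Berg Cardinal

variable {A : Type}

/-- operations of all arities -/
abbrev Ops (A : Type) := Σ n : ℕ, (Fin (n + 1) → A) → A

/-- the set of operations as an `OpSet` -/
def toOp (S : Set (Ops A)) : OpSet A := fun n => {f | (⟨n, f⟩ : Ops A) ∈ S}

/-- the clone generated by a set -/
def gen (S : Set (Ops A)) : OpSet A := fun k => ⋃ i, dep (toOp S) k i

lemma gen_clone (S : Set (Ops A)) : IsClone (gen S) := dep_union_clone _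

lemma subset_gen (S : Set (Ops A)) (n : ℕ) : toOp S n ⊆ gen S n := fun f hf =>
  Set.mem_iUnion.mpr ⟨1, subset_dep _ n hf⟩

lemma dep_le {H D : OpSet A} (hD : IsClone D) (h : ∀ n, H n ⊆ D n) (k i : ℕ) :
    dep H k i ⊆ D k := by
  induction i with
  | zero => rintro f ⟨i, rfl⟩; exact hD.proj k i
  | succ i ih =>
    rintro f (⟨n, g, p, hg, hp, rfl⟩ | hf)
    · exact hD.comp n k g p (h n hg) fun j => ih (hp j)
    · exact ih hf

lemma gen_le {S : Set (Ops A)} {D : OpSet A} (hD : IsClone D) (h : ∀ n, toOp S n ⊆ D n) (n : ℕ) :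
    gen S n ⊆ D n := by
  intro f hf
  obtain ⟨i, hi⟩ := Set.mem_iUnion.mp hf
  exact dep_le hD h n i hi

lemma gen_mono {S T : Set (Ops A)} (h : S ⊆ T) (n : ℕ) : gen S n ⊆ gen T n :=
  gen_le (gen_clone T) (fun m f hf => subset_gen T m (h hf)) n

lemma gen_generates (S : Set (Ops A)) : Generates (toOp S) (gen S) :=
  ⟨gen_clone S, subset_gen S, fun D hD h n => gen_le hD h n⟩

lemma toOp_set (H : OpSet A) : toOp {p : Ops A | p.2 ∈ H p.1} = H := rfl

lemma countable_dep (H : OpSet A) (hH : ∀ n, (H n).Countable) (k i : ℕ) :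
    (dep H k i).Countable := by
  induction i with
  | zero =>
    have : dep H k 0 = Set.range fun i : Fin (k + 1) => fun x : Fin (k + 1) → A => x i := by
      ext f
      exact ⟨fun ⟨i, h⟩ => ⟨i, h.symm⟩, fun ⟨i, h⟩ => ⟨i, h.symm⟩⟩
    rw [this]
    exact Set.countable_range _
  | succ i ih =>
    refine Set.Countable.union ?_ ih
    have : {f | ∃ (n : ℕ) (g : (Fin (n + 1) → A) → A) (h : Fin (n + 1) → (Fin (k + 1) → A) → A),
      g ∈ H n ∧ (∀ j, h j ∈ dep H k i) ∧ f = fun x => g fun j => h j x} =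
      ⋃ n : ℕ, ⋃ g ∈ H n, (fun (h : Fin (n + 1) → (Fin (k + 1) → A) → A) =>
        fun x => g fun j => h j x) '' {h | ∀ j, h j ∈ dep H k i} := by
      ext f
      simp only [Set.mem_iUnion, Set.mem_image]
      constructor
      · rintro ⟨n, g, h, hg, hh, rfl⟩
        exact ⟨n, g, hg, h, hh, rfl⟩
      · rintro ⟨n, g, hg, h, hh, rfl⟩
        exact ⟨n, g, h, hg, hh, rfl⟩
    rw [this]
    refine Set.countable_iUnion fun n => Set.Countable.biUnion (hH n) fun g _ => ?_
    refine Set.Countable.image ?_ _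
    have h2 := Set.countable_univ_pi (α := Fin (n + 1)) (s := fun _ => dep H k i) fun _ => ih
    refine h2.mono fun h hh => ?_
    intro j _
    exact hh j

lemma countable_gen (S : Set (Ops A)) (hS : S.Countable) (k : ℕ) : (gen S k).Countable := by
  refine Set.countable_iUnion fun i => countable_dep _ (fun n => ?_) k i
  exact hS.preimage (fun f g h => by simpa using h)

/-- a clone that is not finitely generated is the union of a chain of proper subclones -/
theorem exists_chain {F : OpSet A} (hF : IsClone F) (hfg : ¬ FinitelyGenerated F) :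
    ∃ κ, IsChainUnion F κ := by
  classical
  let K : Set Cardinal.{0} := {κ | ∃ S : Set (Ops A), #S = κ ∧ gen S = F}
  have hK : K.Nonempty := by
    refine ⟨_, {p : Ops A | p.2 ∈ F p.1}, rfl, ?_⟩
    funext n
    exact Set.Subset.antisymm (gen_le hF (fun n => by rw [toOp_set]) n)
      (fun f hf => subset_gen _ n hf)
  obtain ⟨S, hS, hSF⟩ := csInf_mem hK
  set κ := sInf K with hκ
  have hω : ℵ₀ ≤ κ := by
    by_contra hlt
    push Not at hlt
    rw [← hS, Cardinal.lt_aleph0_iff_set_finite] at hlt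
    refine hfg ⟨toOp S, ?_, ?_⟩
    · exact hlt
    · rw [← hSF]; exact gen_generates S
  have hlim : Order.IsSuccLimit κ.ord := Cardinal.isSuccLimit_ord hω
  -- a bijection of `S` with the ordinals below `κ.ord`
  have hcard : #S = #(κ.ord.ToType) := by rw [hS, Cardinal.mk_ord_toType]
  obtain ⟨e⟩ := Cardinal.eq.mp hcard
  let rk : S → Ordinal.{0} := fun s => Ordinal.typein (α := κ.ord.ToType) (· < ·) (e s)
  have hrk : ∀ s, rk s < κ.ord := fun s => by
    have := Ordinal.typein_lt_type (α := κ.ord.ToType) (· < ·) (e s)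
    rwa [Ordinal.type_toType] at this
  have hinj : Function.Injective rk := fun s t h =>
    e.injective (Ordinal.typein_injective (α := κ.ord.ToType) (· < ·) h)
  let Si : Ordinal.{0} → Set (Ops A) := fun i => {p | ∃ h : p ∈ S, rk ⟨p, h⟩ < i}
  refine ⟨κ, fun i => gen (Si i), ?_, ?_, ?_⟩
  · intro i hi
    refine ⟨gen_clone _, fun n => ?_, fun h => ?_⟩
    · rw [← hSF]
      exact gen_mono (fun p hp => hp.1) n
    · have h1 : sInf K ≤ #(Si i) := csInf_le' ⟨Si i, rfl, h⟩
      have h2 : #(Si i) < κ := by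
        have hinj2 : Function.Injective (fun p : Si i =>
            (⟨rk ⟨p.1, p.2.1⟩, p.2.2⟩ : Set.Iio i)) := by
          intro p q hpq
          have h5 : (⟨p.1, p.2.1⟩ : S) = ⟨q.1, q.2.1⟩ := hinj (Subtype.ext_iff.mp hpq)
          exact Subtype.ext (congrArg (fun t : S => t.1) h5)
        have h4 : Cardinal.lift.{1} #(Si i) ≤ #(Set.Iio i) := by
          rw [← Cardinal.mk_uLift]
          exact Cardinal.mk_le_of_injective (f := fun p : ULift.{1} (Si i) =>
            (⟨rk ⟨p.down.1, p.down.2.1⟩, p.down.2.2⟩ : Set.Iio i))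
            (fun p q hpq => by
              have := hinj2 hpq
              exact ULift.ext _ _ this)
        rw [Cardinal.mk_Iio_ordinal] at h4
        have h5 := Cardinal.lift_le.mp h4
        exact h5.trans_lt (Cardinal.lt_ord.mp hi)
      exact absurd h1 (not_le.mpr h2)
  · intro i j hij _ n
    have hs : Si i ⊆ Si j := fun p hp => ⟨hp.1, hp.2.trans_le hij⟩
    exact gen_mono hs n
  · intro n f hf
    -- the union of the chain is a clone containing `S`
    let D : OpSet A := fun n => {f | ∃ i < κ.ord, f ∈ gen (Si i) n}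
    have hD : IsClone D := by
      constructor
      · intro n i
        exact ⟨0, hlim.bot_lt, (gen_clone _).proj n i⟩
      · rintro n m f g ⟨i, hi, hf⟩ hg
        choose j hj hg using hg
        let M : Ordinal.{0} := max i (Finset.univ.sup j)
        have hM : M < κ.ord := by
          refine max_lt hi ?_
          rw [Finset.sup_lt_iff hlim.bot_lt]
          exact fun k _ => hj k
        refine ⟨M, hM, (gen_clone _).comp n m f g ?_ fun k => ?_⟩
        · have hs : Si i ⊆ Si M := fun p hp => ⟨hp.1, hp.2.trans_le (le_max_left _ _)⟩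
          exact gen_mono hs n hf
        · have hs : Si (j k) ⊆ Si M := fun p hp => ⟨hp.1, hp.2.trans_le
            ((Finset.le_sup (Finset.mem_univ k)).trans (le_max_right _ _))⟩
          exact gen_mono hs m (hg k)
    have hSD : ∀ n, toOp S n ⊆ D n := by
      intro n f hf
      refine ⟨Order.succ (rk ⟨⟨n, f⟩, hf⟩), hlim.succ_lt (hrk _), ?_⟩
      exact subset_gen _ n ⟨hf, Order.lt_succ _⟩
    have : f ∈ gen S n := by rw [hSF]; exact hf
    exact gen_le hD hSD n this

/-- If every sequence of members of `F` lies in a finitely generated subclone, then `F` is not the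
union of a countable chain of proper subclones. -/
theorem cof_of_seq {F : OpSet A} (hF : IsClone F) (hfg : ¬ FinitelyGenerated F)
    (hseq : ∀ f : ℕ → Ops A, (∀ i, (f i).2 ∈ F (f i).1) →
      ∃ H : Set (Ops A), H.Finite ∧ (∀ p ∈ H, p.2 ∈ F p.1) ∧ ∀ i, (f i).2 ∈ gen H (f i).1) :
    ℵ₀ < cofinality F := by
  classical
  have hne : {κ | IsChainUnion F κ}.Nonempty := exists_chain hF hfg
  have hmem : IsChainUnion F (cofinality F) := csInf_mem hne
  by_contra hcon
  push Not at hcon
  obtain ⟨C, h1, h2, h3⟩ := hmem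
  set κ := cofinality F
  have hcount : (Set.Iio κ.ord).Countable := by
    rw [← Cardinal.le_aleph0_iff_set_countable, Cardinal.mk_Iio_ordinal, Cardinal.card_ord]
    calc Cardinal.lift.{1} κ ≤ Cardinal.lift.{1} ℵ₀ := Cardinal.lift_le.mpr hcon
      _ = ℵ₀ := Cardinal.lift_aleph0
  obtain ⟨i0, hi0, -⟩ := h3 0 _ (hF.proj 0 0)
  have hne' : (Set.Iio κ.ord).Nonempty := ⟨i0, hi0⟩
  obtain ⟨c, hc⟩ := hcount.exists_eq_range hne'
  have hcκ : ∀ n, c n < κ.ord := fun n => by
    have : c n ∈ Set.Iio κ.ord := by rw [hc]; exact ⟨n, rfl⟩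
    exact this
  have hex : ∀ n, ∃ p : Ops A, p.2 ∈ F p.1 ∧ p.2 ∉ C (c n) p.1 := by
    intro n
    by_contra hall
    push Not at hall
    obtain ⟨-, hsub, hneq⟩ := h1 (c n) (hcκ n)
    exact hneq (funext fun m => Set.Subset.antisymm (hsub m) fun f hf => hall ⟨m, f⟩ hf)
  choose f hf hf' using hex
  obtain ⟨H, hfin, hHF, hH⟩ := hseq f hf
  -- an index above all generators
  have hidx : ∀ T : Set (Ops A), T.Finite → (∀ p ∈ T, p.2 ∈ F p.1) →
      ∃ i < κ.ord, ∀ p ∈ T, p.2 ∈ C i p.1 := by
    intro T hT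
    induction T, hT using Set.Finite.induction_on with
    | empty => exact fun _ => ⟨i0, hi0, fun p hp => absurd hp (Set.notMem_empty p)⟩
    | @insert a T _ _ ih =>
      intro hall
      obtain ⟨i, hi, hi'⟩ := ih fun p hp => hall p (Set.mem_insert_of_mem _ hp)
      obtain ⟨j, hj, hj'⟩ := h3 a.1 a.2 (hall a (Set.mem_insert _ _))
      refine ⟨max i j, max_lt hi hj, ?_⟩
      rintro p (rfl | hp)
      · exact h2 j _ (le_max_right _ _) (max_lt hi hj) _ hj'
      · exact h2 i _ (le_max_left _ _) (max_lt hi hj) _ (hi' p hp)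
  obtain ⟨i, hi, hi'⟩ := hidx H hfin hHF
  obtain ⟨n, rfl⟩ : ∃ n, c n = i := by
    have : i ∈ Set.range c := by rw [← hc]; exact hi
    exact this
  exact hf' n (gen_le (h1 _ hi).1 (fun m g hg => hi' ⟨m, g⟩ hg) _ (hH n))

end Q24.Ury
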