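import Mathlib
import Pool.Agent.Q15.BergDefs
import Pool.Agent.Q15.BergMain
import Pool.Agent.Q15.BergMetric

/-! Anchored embeddings of countable rational metric spaces into the rational Urysohn space, and
the extension of nonexpansive maps from anchored subsets. -/

namespace Q24.Ury

open Q15Berg

variable {X : Type} [MetricSpace X]

lemma zero_mem : (0 : ℝ) ∈ ratDist := ⟨0, by simp⟩

theorem amalgamR (hX : IsFraisseLimit ratDist X) {ι : Type*} [Finite ι] [Nonempty ι] (p : ι → X)
    (r : ι → ℝ) (hr : ∀ i, r i ∈ ratDist) (hr0 : ∀ i, 0 ≤ r i)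
    (hpr : ∀ i j, dist (p i) (p j) ≤ r i + r j)
    (E : Set X) (hE : E.Finite) : ∃ w, ∀ a ∈ E, (∀ i, dist w a ≤ r i + dist (p i) a) ∧
      ∃ i, dist w a = r i + dist (p i) a := by
  classical
  cases nonempty_fintype ι
  have hne : (Finset.univ : Finset ι).Nonempty := Finset.univ_nonempty
  let F : X → ℝ := fun a => Finset.univ.inf' hne fun i => r i + dist (p i) a
  have hF2 : ∀ a i, F a ≤ r i + dist (p i) a := fun a i =>
    Finset.inf'_le (fun i => r i + dist (p i) a) (Finset.mem_univ i)
  have hF3 : ∀ a, ∃ i, F a = r i + dist (p i) a := by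
    intro a
    obtain ⟨i, -, h⟩ := Finset.exists_mem_eq_inf' hne fun i => r i + dist (p i) a
    exact ⟨i, h⟩
  have hF0 : ∀ a, 0 ≤ F a := by
    intro a
    obtain ⟨i, h⟩ := hF3 a
    rw [h]; exact add_nonneg (hr0 i) dist_nonneg
  have hK1 : ∀ a b, F a ≤ F b + dist a b := by
    intro a b
    obtain ⟨i, h⟩ := hF3 b
    rw [h]
    have h3 := hF2 a i
    have h4 := dist_triangle (p i) b a
    rw [dist_comm b a] at h4
    linarith
  have hK2 : ∀ a b, dist a b ≤ F a + F b := by
    intro a b
    obtain ⟨i, h⟩ := hF3 a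
    obtain ⟨j, h'⟩ := hF3 b
    rw [h, h']
    have h3 := hpr i j
    have h4 := dist_triangle4 a (p i) (p j) b
    rw [dist_comm a (p i)] at h4
    linarith
  have hFr : ∀ a, F a ∈ ratDist := by
    intro a
    obtain ⟨i, h⟩ := hF3 a
    rw [h]; exact rat_add (hr i) (hX.dist_mem _ _)
  have key : ∃ w, ∀ a ∈ E, dist w a = F a := by
    by_cases h : ∃ e ∈ E, F e = 0
    · obtain ⟨e, he, h⟩ := h
      refine ⟨e, fun a _ => ?_⟩
      have h3 := hK1 a e
      have h4 := hK2 e a
      rw [dist_comm a e] at h3
      rw [h] at h3 h4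
      linarith
    · push Not at h
      exact extension hX E hE F (fun a _ => hFr a) zero_mem
        (fun a ha => lt_of_le_of_ne (hF0 a) (h a ha).symm) (fun a _ b _ => hK1 a b)
        (fun a _ b _ => hK2 a b)
  obtain ⟨w, hw⟩ := key
  refine ⟨w, fun a ha => ?_⟩
  rw [hw a ha]
  exact ⟨hF2 a, hF3 a⟩

/-- `v` is anchored: the distances of any point to the image of `v` are controlled by finitely many
points of the image. -/
def Anchored {Y : Type*} (v : Y → X) : Prop :=
  ∀ x : X, ∃ A : Finset Y, ∀ y, ∃ a ∈ A, dist x (v y) = dist x (v a) + dist (v a) (v y)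

/-- Nonexpansive maps extend from anchored subsets. -/
theorem extend (hX : IsFraisseLimit ratDist X) {Y : Type*} [Nonempty Y] (v g : Y → X)
    (hg : ∀ a b, dist (g a) (g b) ≤ dist (v a) (v b)) (hv : Anchored v) :
    ∃ G : X → X, (∀ x y, dist (G x) (G y) ≤ dist x y) ∧ ∀ y, G (v y) = g y := by
  classical
  have := hX.countable
  obtain ⟨y0⟩ := ‹Nonempty Y›
  have : Nonempty X := ⟨v y0⟩
  obtain ⟨x, hx⟩ := exists_surjective_nat X
  obtain ⟨w, hw⟩ := exists_seq (Y := X) (fun w j => (∀ y, dist (w j) (g y) ≤ dist (x j) (v y)) ∧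
      (∀ i, i < j → dist (w j) (w i) ≤ dist (x j) (x i)))
    (by
      rintro u w n h ⟨h1, h2⟩
      refine ⟨fun m => ?_, fun i hi => ?_⟩
      · rw [← h n le_rfl]; exact h1 m
      · rw [← h n le_rfl, ← h i hi.le]; exact h2 i hi)
    (by
      intro j u hu
      have huu : ∀ i i' : ℕ, i < j → i' < j → dist (u i) (u i') ≤ dist (x i) (x i') := by
        intro i i' hi hi'
        rcases lt_trichotomy i i' with h | rfl | h
        · rw [dist_comm, dist_comm (x i)]; exact (hu i' hi').2 i h
        · rw [dist_self]; exact dist_nonneg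
        · exact (hu i hi).2 i' h
      obtain ⟨A, hA⟩ := hv (x j)
      obtain ⟨a0, ha0, -⟩ := hA y0
      have : Nonempty ({a // a ∈ A} ⊕ Fin j) := ⟨.inl ⟨a0, ha0⟩⟩
      let p : {a // a ∈ A} ⊕ Fin j → X := Sum.elim (fun m => g m) (fun i => u i)
      let r : {a // a ∈ A} ⊕ Fin j → ℝ :=
        Sum.elim (fun m => dist (x j) (v m)) (fun i => dist (x j) (x i))
      obtain ⟨z, hz⟩ := amalgamR hX p r
        (by rintro (m | i) <;> exact hX.dist_mem _ _) (by rintro (m | i) <;> exact dist_nonneg)
        (by
          rintro (m | i) (m' | i')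
          · change dist (g m) (g m') ≤ dist (x j) (v m) + dist (x j) (v m')
            have h1 := hg m m'
            have h2 := dist_triangle (v m) (x j) (v m')
            rw [dist_comm (v m) (x j)] at h2
            linarith
          · change dist (g m) (u i') ≤ dist (x j) (v m) + dist (x j) (x i')
            have h1 := (hu i' i'.2).1 m
            have h2 := dist_triangle (x i') (x j) (v m)
            rw [dist_comm (x i') (x j)] at h2
            rw [dist_comm (g m)]
            linarith
          · change dist (u i) (g m') ≤ dist (x j) (x i) + dist (x j) (v m')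
            have h1 := (hu i i.2).1 m'
            have h2 := dist_triangle (x i) (x j) (v m')
            rw [dist_comm (x i) (x j)] at h2
            linarith
          · change dist (u i) (u i') ≤ dist (x j) (x i) + dist (x j) (x i')
            have h1 := huu i i' i.2 i'.2
            have h2 := dist_triangle (x i) (x j) (x i')
            rw [dist_comm (x i) (x j)] at h2
            linarith)
        (Set.range p) (Set.finite_range _)
      have hz' : ∀ t, dist z (p t) ≤ r t := by
        intro t
        have := (hz (p t) ⟨t, rfl⟩).1 t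
        simpa using this
      refine ⟨z, ?_, ?_⟩
      · intro y
        rw [Function.update_self]
        obtain ⟨a, ha, h1⟩ := hA y
        have h2 : dist z (g a) ≤ dist (x j) (v a) := hz' (.inl ⟨a, ha⟩)
        have h3 := dist_triangle z (g a) (g y)
        have h4 := hg a y
        linarith
      · intro i hi
        rw [Function.update_self, Function.update_of_ne (by omega)]
        exact hz' (.inr ⟨i, hi⟩))
  have hvv : ∀ i i' : ℕ, dist (w i) (w i') ≤ dist (x i) (x i') := by
    intro i i'
    rcases lt_trichotomy i i' with h | rfl | h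
    · rw [dist_comm, dist_comm (x i)]; exact (hw i').2 i h
    · rw [dist_self]; exact dist_nonneg
    · exact (hw i).2 i' h
  choose c hc using hx
  refine ⟨fun y => w (c y), fun y z => ?_, fun y => ?_⟩
  · have := hvv (c y) (c z)
    rwa [hc, hc] at this
  · have := (hw (c (v y))).1 y
    rw [hc, dist_self] at this
    exact dist_le_zero.mp this

/-- Anchored embeddings of countable rational pseudometric spaces. -/
theorem embed (hX : IsFraisseLimit ratDist X) {W : Type} [Countable W] [Nonempty W]
    (δ : W → W → ℝ)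
    (hδ : ∀ n m, δ n m ∈ ratDist) (hδ0 : ∀ n m, 0 ≤ δ n m)
    (hδs : ∀ n, δ n n = 0) (hδc : ∀ n m, δ n m = δ m n)
    (hδt : ∀ n m l, δ n l ≤ δ n m + δ m l) :
    ∃ u : W → X, (∀ n m, dist (u n) (u m) = δ n m) ∧ Anchored u := by
  classical
  have := hX.countable
  obtain ⟨x0⟩ : Nonempty X := by
    obtain ⟨f, -⟩ := hX.universal Unit inferInstance (fun x y => ⟨0, by simp⟩)
    exact ⟨f ()⟩
  have : Nonempty X := ⟨x0⟩
  obtain ⟨x, hx⟩ := exists_surjective_nat X
  obtain ⟨c, hc⟩ := exists_surjective_nat W
  obtain ⟨u, hu⟩ := exists_seq (Y := X)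
    (fun u n => (∀ m, m < n → dist (u n) (u m) = δ (c n) (c m)) ∧
      (∀ i, i < n → ∃ m, m < n ∧ dist (u n) (x i) = δ (c m) (c n) + dist (u m) (x i)))
    (by
      rintro u v n h ⟨h1, h2⟩
      refine ⟨fun m hm => ?_, fun i hi => ?_⟩
      · rw [← h n le_rfl, ← h m hm.le]; exact h1 m hm
      · rw [← h n le_rfl]
        obtain ⟨m, hm, h3⟩ := h2 i hi
        refine ⟨m, hm, ?_⟩
        rw [← h m hm.le]; exact h3)
    (by
      intro n u hu
      have hdist : ∀ i j : ℕ, i < n → j < n → dist (u i) (u j) = δ (c i) (c j) := by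
        intro i j hi hj
        rcases lt_trichotomy i j with h | rfl | h
        · rw [dist_comm, hδc]; exact (hu j hj).1 i h
        · rw [dist_self, hδs]
        · exact (hu i hi).1 j h
      rcases Nat.eq_zero_or_pos n with rfl | hn
      · exact ⟨x0, fun m hm => absurd hm (Nat.not_lt_zero _),
          fun m hm => absurd hm (Nat.not_lt_zero _)⟩
      have : Nonempty (Fin n) := ⟨⟨0, hn⟩⟩
      obtain ⟨w, hw⟩ := amalgamR hX (fun i : Fin n => u i) (fun i => δ (c i) (c n))
        (fun i => hδ _ _)
        (fun i => hδ0 _ _) (fun i j => by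
          rw [hdist i j i.2 j.2, hδc (c j) (c n)]
          exact hδt _ _ _)
        (Set.range (fun i : Fin n => x i) ∪ Set.range (fun i : Fin n => u i))
        ((Set.finite_range _).union (Set.finite_range _))
      refine ⟨w, ?_, ?_⟩
      · intro m hm
        rw [Function.update_self, Function.update_of_ne (by omega)]
        obtain ⟨h1, i, h2⟩ := hw (u m) (Or.inr ⟨⟨m, hm⟩, rfl⟩)
        apply le_antisymm
        · have := h1 ⟨m, hm⟩
          simp only [dist_self, add_zero] at this
          rw [hδc]; exact this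
        · rw [h2, hdist i m i.2 hm, hδc (c i) (c n)]
          exact hδt _ _ _
      · intro i hi
        rw [Function.update_self]
        obtain ⟨m, h⟩ := (hw (x i) (Or.inl ⟨⟨i, hi⟩, rfl⟩)).2
        refine ⟨m, m.2, ?_⟩
        rw [Function.update_of_ne m.2.ne]; exact h)
  have hdist : ∀ i j : ℕ, dist (u i) (u j) = δ (c i) (c j) := by
    intro i j
    rcases lt_trichotomy i j with h | rfl | h
    · rw [dist_comm, hδc]; exact (hu j).1 i h
    · rw [dist_self, hδs]
    · exact (hu i).1 j h
  have hanch : ∀ i n, ∃ m ≤ i, dist (x i) (u n) = dist (x i) (u m) + dist (u m) (u n) := by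
    intro i n
    induction n using Nat.strong_induction_on with
    | _ n ih =>
      rcases Nat.lt_or_ge i n with h | h
      · obtain ⟨m, hm, h1⟩ := (hu n).2 i h
        obtain ⟨m', hm', h2⟩ := ih m hm
        refine ⟨m', hm', ?_⟩
        have h3 := dist_triangle (u m') (u m) (u n)
        have h4 := dist_triangle (x i) (u m') (u n)
        rw [← hdist, dist_comm] at h1
        rw [dist_comm (u m) (x i)] at h1
        linarith
      · exact ⟨n, h, by rw [dist_self, add_zero]⟩
  choose code hcode using hc
  refine ⟨fun w => u (code w), fun w w' => by rw [hdist, hcode, hcode], fun z => ?_⟩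
  obtain ⟨i, rfl⟩ := hx z
  refine ⟨(Finset.range (i + 1)).image c, fun y => ?_⟩
  obtain ⟨m, hm, h⟩ := hanch i (code y)
  refine ⟨c m, Finset.mem_image.mpr ⟨m, Finset.mem_range.mpr (by omega), rfl⟩, ?_⟩
  have h1 : u (code (c m)) = u m := by
    rw [← dist_eq_zero, hdist, hcode, hδs]
  change dist (x i) (u (code y)) = dist (x i) (u (code (c m))) + dist (u (code (c m))) (u (code y))
  rw [h1]; exact h

/-- Anchored subsets of anchored subsets are anchored. -/
theorem Anchored.comp {Y W : Type*} {u : W → X} (hu : Anchored u) (q : Y → W)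
    (hq : ∀ w, ∃ A : Finset Y, ∀ y, ∃ a ∈ A,
      dist (u w) (u (q y)) = dist (u w) (u (q a)) + dist (u (q a)) (u (q y))) :
    Anchored fun y => u (q y) := by
  classical
  intro x
  obtain ⟨A, hA⟩ := hu x
  choose B hB using hq
  refine ⟨A.biUnion B, fun y => ?_⟩
  obtain ⟨a, ha, h1⟩ := hA (q y)
  obtain ⟨b, hb, h2⟩ := hB a y
  refine ⟨b, Finset.mem_biUnion.mpr ⟨a, ha, hb⟩, ?_⟩
  have h3 := dist_triangle x (u a) (u (q b))
  have h4 := dist_triangle x (u (q b)) (u (q y))
  change dist x (u (q y)) = dist x (u (q b)) + dist (u (q b)) (u (q y))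
  linarith

end Q24.Ury
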