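import Mathlib
import Pool.Agent.Q15.BergMetric
import Pool.Agent.Q24.Ury.Defs
import Pool.Agent.Q24.Ury.Chain
import Pool.Agent.Q24.Ury.Emb

/-! Every sequence of polymorphisms lies in a subclone generated by four elements. -/

namespace Q24.Ury

open Q15Berg Cardinal

variable {X : Type} [MetricSpace X]

/-- nonexpansive self-maps -/
def NE (f : X → X) : Prop := ∀ x y, dist (f x) (f y) ≤ dist x y

/-- The three properties of the metric space that are used. -/
structure Tame (X : Type) [MetricSpace X] : Prop where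
  pairing : ∃ (c : X → X → X) (p q : X → X),
    (∀ x y x' y', dist (c x y) (c x' y') ≤ max (dist x x') (dist y y')) ∧ NE p ∧ NE q ∧
      (∀ x y, p (c x y) = x) ∧ ∀ x y, q (c x y) = y
  seq : ∀ f : ℕ → X → X, (∀ n, NE (f n)) → ∃ e s g : X → X, NE e ∧ NE s ∧ NE g ∧
    ∀ n, ∃ t : ℕ, ∀ x, g (s^[t] (e x)) = f n x
  unc : ¬ {f : X → X | NE f}.Countable

lemma metricPol_clone : IsClone (metricPol X) := by
  refine ⟨?_, ?_⟩
  · intro n i x y
    exact le_iSup' (fun i => dist (x i) (y i)) i
  · intro n m f g hf hg x y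
    exact (hf _ _).trans (iSup_le' fun j => hg j x y)

/-- iterated pairing -/
def code (c : X → X → X) : (n : ℕ) → (Fin (n + 1) → X) → X
  | 0, x => x 0
  | n + 1, x => c (x 0) (code c n fun i => x i.succ)

/-- the projections of the iterated pairing -/
def dec (p q : X → X) : (n : ℕ) → Fin (n + 1) → X → X
  | 0, _ => id
  | n + 1, i => Fin.cases p (fun j => fun w => dec p q n j (q w)) i

lemma dec_ne {p q : X → X} (hp : NE p) (hq : NE q) (n : ℕ) : ∀ i, NE (dec p q n i) := by
  induction n with
  | zero => intro i x y; exact le_rfl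
  | succ n ih =>
    intro i
    refine Fin.cases ?_ (fun j => ?_) i
    · exact hp
    · intro x y
      exact (ih j _ _).trans (hq _ _)

lemma dec_code {c : X → X → X} {p q : X → X} (hp : ∀ x y, p (c x y) = x)
    (hq : ∀ x y, q (c x y) = y) (n : ℕ) : ∀ (x : Fin (n + 1) → X) i,
      dec p q n i (code c n x) = x i := by
  induction n with
  | zero =>
    intro x i
    have hi : i = 0 := Fin.ext (by omega)
    rw [hi]; rfl
  | succ n ih =>
    intro x i
    refine Fin.cases ?_ (fun j => ?_) i
    · exact hp _ _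
    · change dec p q n j (q (c (x 0) (code c n fun i => x i.succ))) = x j.succ
      rw [hq]
      exact ih _ j

omit [MetricSpace X] in
lemma code_mem {c : X → X → X} {D : OpSet X} (hD : IsClone D)
    (hc : (fun x : Fin (1 + 1) → X => c (x 0) (x 1)) ∈ D 1) (n : ℕ) : code c n ∈ D n := by
  induction n with
  | zero => exact hD.proj 0 0
  | succ n ih =>
    have h1 : (fun x : Fin (n + 1 + 1) → X => code c n fun i => x i.succ) ∈ D (n + 1) :=
      hD.comp n (n + 1) _ (fun i x => x i.succ) ih fun j => hD.proj _ _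
    have h2 := hD.comp 1 (n + 1) _ ![fun x => x 0, fun x => code c n fun i => x i.succ] hc
      (fun j => by
        refine Fin.cases ?_ (fun j => ?_) j
        · exact hD.proj _ _
        · rw [Subsingleton.elim j 0]; exact h1)
    exact h2

omit [MetricSpace X] in
lemma iter_mem {s : X → X} {D : OpSet X} (hD : IsClone D)
    (hs : (fun x : Fin (0 + 1) → X => s (x 0)) ∈ D 0) {n : ℕ} {h : (Fin (n + 1) → X) → X}
    (hh : h ∈ D n) (t : ℕ) : (fun x => s^[t] (h x)) ∈ D n := by
  induction t with
  | zero => exact hh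
  | succ t ih =>
    have := hD.comp 0 n _ (fun _ => fun x => s^[t] (h x)) hs fun _ => ih
    have h2 : (fun x => s^[t + 1] (h x)) = fun x => s (s^[t] (h x)) := by
      funext x
      rw [Function.iterate_succ_apply']
    rw [h2]
    exact this

/-- Every sequence of polymorphisms lies in a subclone with four generators. -/
theorem four_gen (hX : Tame X) (f : ℕ → Ops X) (hf : ∀ i, (f i).2 ∈ metricPol X (f i).1) :
    ∃ H : Set (Ops X), H.Finite ∧ (∀ p ∈ H, p.2 ∈ metricPol X p.1) ∧
      ∀ i, (f i).2 ∈ gen H (f i).1 := by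
  obtain ⟨c, p, q, hc, hp, hq, hpc, hqc⟩ := hX.pairing
  have hne : ∀ i, NE fun w => (f i).2 fun j => dec p q (f i).1 j w := by
    intro i x y
    exact (hf i _ _).trans (iSup_le' fun j => dec_ne hp hq _ j x y)
  obtain ⟨e, s, g, he, hs, hg, hall⟩ := hX.seq _ hne
  refine ⟨{⟨1, fun x => c (x 0) (x 1)⟩, ⟨0, fun x => e (x 0)⟩, ⟨0, fun x => s (x 0)⟩,
    ⟨0, fun x => g (x 0)⟩}, Set.toFinite _, ?_, ?_⟩
  · have hun : ∀ h : X → X, NE h → (fun x : Fin (0 + 1) → X => h (x 0)) ∈ metricPol X 0 :=
      fun h hh x y => (hh _ _).trans (le_iSup' (fun i => dist (x i) (y i)) 0)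
    rintro r (rfl | rfl | rfl | rfl)
    · intro x y
      refine (hc _ _ _ _).trans (max_le ?_ ?_)
      · exact le_iSup' (fun i => dist (x i) (y i)) 0
      · exact le_iSup' (fun i => dist (x i) (y i)) 1
    · exact hun e he
    · exact hun s hs
    · exact hun g hg
  · intro i
    set H : Set (Ops X) := {⟨1, fun x => c (x 0) (x 1)⟩, ⟨0, fun x => e (x 0)⟩,
      ⟨0, fun x => s (x 0)⟩, ⟨0, fun x => g (x 0)⟩} with hH
    have hD := gen_clone H
    have h1 : (fun x : Fin (1 + 1) → X => c (x 0) (x 1)) ∈ gen H 1 :=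
      subset_gen H 1 (Or.inl rfl)
    have h2 : (fun x : Fin (0 + 1) → X => e (x 0)) ∈ gen H 0 :=
      subset_gen H 0 (Or.inr (Or.inl rfl))
    have h3 : (fun x : Fin (0 + 1) → X => s (x 0)) ∈ gen H 0 :=
      subset_gen H 0 (Or.inr (Or.inr (Or.inl rfl)))
    have h4 : (fun x : Fin (0 + 1) → X => g (x 0)) ∈ gen H 0 :=
      subset_gen H 0 (Or.inr (Or.inr (Or.inr rfl)))
    obtain ⟨t, ht⟩ := hall i
    set n := (f i).1
    have k1 : code c n ∈ gen H n := code_mem hD h1 n
    have k2 := hD.comp 0 n _ (fun _ => code c n) h2 fun _ => k1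
    have k3 := iter_mem hD h3 k2 t
    have k4 := hD.comp 0 n _ (fun _ => _) h4 fun _ => k3
    have k5 : (fun x => g (s^[t] (e (code c n x)))) = (f i).2 := by
      funext x
      rw [ht]
      exact congrArg _ (funext fun j => dec_code hpc hqc n x j)
    rw [← k5]
    exact k4

theorem not_fg (hX : Tame X) : ¬ FinitelyGenerated (metricPol X) := by
  rintro ⟨H, hfin, hgen⟩
  have h1 : (metricPol X 0).Countable := by
    refine (countable_gen {p : Ops X | p.2 ∈ H p.1} hfin.countable 0).mono ?_
    exact hgen.least _ (gen_clone _) (fun n => subset_gen {p : Ops X | p.2 ∈ H p.1} n) 0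
  apply hX.unc
  have h2 : {f : X → X | NE f} ⊆ (fun F : (Fin (0 + 1) → X) → X => fun x => F fun _ => x) ''
      metricPol X 0 := by
    intro f hf
    refine ⟨fun x => f (x 0), ?_, rfl⟩
    exact fun x y => (hf _ _).trans (le_iSup' (fun i => dist (x i) (y i)) 0)
  exact (h1.image _).mono h2

/-- The cofinality of the polymorphism clone is uncountable. -/
theorem tame_cof (hX : Tame X) : ℵ₀ < cofinality (metricPol X) :=
  cof_of_seq metricPol_clone (not_fg hX) (four_gen hX)

end Q24.Ury
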