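import Mathlib
import Pool.Agent.Q15.BergMetric
import Pool.Agent.Q24.Ury.Main

/-! The rational Urysohn space and the rational Urysohn sphere are tame. -/

namespace Q24.Ury

open Q15Berg Cardinal

variable {X : Type} [MetricSpace X]

lemma rat_max {r s : ℝ} (hr : r ∈ ratDist) (hs : s ∈ ratDist) : max r s ∈ ratDist := by
  rcases max_choice r s with h | h <;> rw [h] <;> assumption

/-- many nonexpansive maps, from a discrete sequence on which everything extends -/
theorem unc_of (u : ℕ → X) (hu : ∀ n m, n ≠ m → dist (u n) (u m) = 1)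
    (hext : ∀ g : ℕ → X, (∀ n m, n ≠ m → dist (g n) (g m) ≤ 1) → ∃ G : X → X, NE G ∧
      ∀ n, G (u n) = g n) : ¬ {f : X → X | NE f}.Countable := by
  classical
  intro hc
  obtain ⟨F, hF⟩ := hc.exists_eq_range ⟨id, fun x y => le_rfl⟩
  obtain ⟨G, hG, hGu⟩ := hext (fun n => if F n (u n) = u 0 then u 1 else u 0) (by
    intro n m _
    split_ifs <;> simp [hu 0 1 (by norm_num), hu 1 0 (by norm_num)])
  have : G ∈ {f : X → X | NE f} := hG
  rw [hF] at this
  obtain ⟨m, rfl⟩ := this
  have h1 := hGu m
  by_cases h : F m (u m) = u 0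
  · rw [if_pos h, h] at h1
    have := hu 0 1 (by norm_num)
    rw [h1, dist_self] at this
    norm_num at this
  · rw [if_neg h] at h1
    exact h h1

/-- A sequence that grows fast enough. -/
lemma exists_sparse (a : ℕ → ℝ) : ∃ t : ℕ → ℕ, StrictMono t ∧
    ∀ m n, m < n → a m + a n ≤ (t n : ℝ) - t m := by
  let B : ℕ → ℕ := fun n => ∑ i ∈ Finset.range (n + 1), ⌈a i⌉₊
  let t : ℕ → ℕ := fun n => ∑ i ∈ Finset.range (n + 1), (B i + 1)
  have hle : ∀ i n, i ≤ n → ⌈a i⌉₊ ≤ B n := fun i n h =>
    Finset.single_le_sum (f := fun i => ⌈a i⌉₊) (fun _ _ => Nat.zero_le _)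
      (Finset.mem_range.mpr (by omega))
  have hsucc : ∀ n, t (n + 1) = t n + (B (n + 1) + 1) := fun n =>
    Finset.sum_range_succ _ _
  have hmono : StrictMono t := strictMono_nat_of_lt_succ fun n => by rw [hsucc]; omega
  refine ⟨t, hmono, ?_⟩
  intro m n hmn
  obtain ⟨k, rfl⟩ := Nat.exists_eq_succ_of_ne_zero (show n ≠ 0 by omega)
  have h1 : t m ≤ t k := hmono.monotone (by omega)
  have h2 : ⌈a m⌉₊ + ⌈a (k + 1)⌉₊ ≤ B (k + 1) := by
    have h3 : B (k + 1) = B k + ⌈a (k + 1)⌉₊ := Finset.sum_range_succ _ _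
    have := hle m k (by omega)
    omega
  have h3 : t m + (⌈a m⌉₊ + ⌈a (k + 1)⌉₊) ≤ t (k + 1) := by
    rw [hsucc]; omega
  have h4 : (t m : ℝ) + ((⌈a m⌉₊ : ℝ) + (⌈a (k + 1)⌉₊ : ℝ)) ≤ t (k + 1) := by exact_mod_cast h3
  have h5 := Nat.le_ceil (a m)
  have h6 := Nat.le_ceil (a (k + 1))
  change a m + a (k + 1) ≤ (t (k + 1) : ℝ) - t m
  linarith

theorem tame_space (hX : IsFraisseLimit ratDist X) : Tame X := by
  classical
  have := hX.countable
  obtain ⟨x0⟩ : Nonempty X := by
    obtain ⟨f, -⟩ := hX.universal Unit inferInstance (fun x y => ⟨0, by simp⟩)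
    exact ⟨f ()⟩
  have : Nonempty X := ⟨x0⟩
  refine ⟨?_, ?_, ?_⟩
  · obtain ⟨u, hu, hanch⟩ := embed hX (W := X × X) (fun a b => dist a b)
      (fun a b => by rw [Prod.dist_eq]; exact rat_max (hX.dist_mem _ _) (hX.dist_mem _ _))
      (fun _ _ => dist_nonneg) (fun _ => dist_self _) (fun _ _ => dist_comm _ _)
      (fun _ _ _ => dist_triangle _ _ _)
    obtain ⟨p, hp, hpu⟩ := extend hX u (fun a => a.1)
      (fun a b => by rw [hu, Prod.dist_eq]; exact le_max_left _ _) hanch
    obtain ⟨q, hq, hqu⟩ := extend hX u (fun a => a.2)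
      (fun a b => by rw [hu, Prod.dist_eq]; exact le_max_right _ _) hanch
    exact ⟨fun x y => u (x, y), p, q, fun x y x' y' => by rw [hu, Prod.dist_eq], hp, hq,
      fun x y => hpu (x, y), fun x y => hqu (x, y)⟩
  · intro f hf
    obtain ⟨t, ht, htt⟩ := exists_sparse fun n => dist (f n x0) x0
    have hnt : ∀ n, n ≤ t n := fun n => ht.le_apply
    let δ : X × ℕ → X × ℕ → ℝ := fun a b =>
      if a.2 = b.2 then dist a.1 b.1 else dist a.1 x0 + |(a.2 : ℝ) - b.2| + dist b.1 x0
    have hδeq : ∀ x y k, δ (x, k) (y, k) = dist x y := fun x y k => if_pos rfl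
    have hδne : ∀ x y k l, k ≠ l → δ (x, k) (y, l) = dist x x0 + |(k : ℝ) - l| + dist y x0 :=
      fun x y k l h => if_neg h
    obtain ⟨u, hu, hanch⟩ := embed hX (W := X × ℕ) δ
      (by
        rintro ⟨x, k⟩ ⟨y, l⟩
        by_cases h : k = l
        · subst h; rw [hδeq]; exact hX.dist_mem _ _
        · rw [hδne _ _ _ _ h]
          refine rat_add (rat_add (hX.dist_mem _ _) ⟨|(k : ℚ) - l|, by push_cast; rfl⟩)
            (hX.dist_mem _ _))
      (by
        rintro ⟨x, k⟩ ⟨y, l⟩
        by_cases h : k = l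
        · subst h; rw [hδeq]; exact dist_nonneg
        · rw [hδne _ _ _ _ h]
          have h1 := dist_nonneg (x := x) (y := x0)
          have h2 := dist_nonneg (x := y) (y := x0)
          have h3 := abs_nonneg ((k : ℝ) - l)
          linarith)
      (by rintro ⟨x, k⟩; rw [hδeq, dist_self])
      (by
        rintro ⟨x, k⟩ ⟨y, l⟩
        by_cases h : k = l
        · subst h; rw [hδeq, hδeq, dist_comm]
        · rw [hδne _ _ _ _ h, hδne _ _ _ _ (Ne.symm h), abs_sub_comm]; ring)
      (by
        rintro ⟨x, k⟩ ⟨y, l⟩ ⟨z, m⟩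
        have hx := dist_nonneg (x := x) (y := x0)
        have hy := dist_nonneg (x := y) (y := x0)
        have hz := dist_nonneg (x := z) (y := x0)
        by_cases h1 : k = l
        · subst h1
          by_cases h2 : k = m
          · subst h2; rw [hδeq, hδeq, hδeq]; exact dist_triangle _ _ _
          · rw [hδeq, hδne _ _ _ _ h2, hδne _ _ _ _ h2]
            have := dist_triangle x y x0
            linarith
        · by_cases h2 : l = m
          · subst h2
            rw [hδeq, hδne _ _ _ _ h1, hδne _ _ _ _ h1]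
            have := dist_triangle z y x0
            rw [dist_comm z y] at this
            linarith
          · by_cases h3 : k = m
            · subst h3
              rw [hδeq, hδne _ _ _ _ h1, hδne _ _ _ _ h2]
              have h4 := dist_triangle_right x z x0
              have h5 := abs_nonneg ((k : ℝ) - l)
              have h6 := abs_nonneg ((l : ℝ) - k)
              linarith
            · rw [hδne _ _ _ _ h1, hδne _ _ _ _ h2, hδne _ _ _ _ h3]
              have := abs_sub_le (k : ℝ) l m
              linarith)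
    have hanch2 : Anchored fun y : X × ℕ => u (y.1, t y.2) := by
      refine hanch.comp (fun y : X × ℕ => (y.1, t y.2)) ?_
      rintro ⟨x, k⟩
      refine ⟨(Finset.range (k + 1)).image (fun j => (x0, j)) ∪
        (Finset.range (k + 1)).image (fun j => (x, j)), ?_⟩
      rintro ⟨z, m⟩
      have hx0 : ∀ j, j ≤ k → ((x0, j) : X × ℕ) ∈ (Finset.range (k + 1)).image (fun j => (x0, j)) ∪
        (Finset.range (k + 1)).image (fun j => (x, j)) := fun j hj =>
          Finset.mem_union_left _ (Finset.mem_image.mpr ⟨j, Finset.mem_range.mpr (by omega), rfl⟩)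
      have hxx : ∀ j, j ≤ k → ((x, j) : X × ℕ) ∈ (Finset.range (k + 1)).image (fun j => (x0, j)) ∪
        (Finset.range (k + 1)).image (fun j => (x, j)) := fun j hj =>
          Finset.mem_union_right _ (Finset.mem_image.mpr ⟨j, Finset.mem_range.mpr (by omega), rfl⟩)
      dsimp only
      by_cases h1 : t m = k
      · refine ⟨(x, m), hxx m (h1 ▸ hnt m), ?_⟩
        change dist (u (x, k)) (u (z, t m)) = dist (u (x, k)) (u (x, t m)) + _
        rw [h1, dist_self, zero_add]
      rcases Nat.lt_or_ge k m with h2 | h2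
      · by_cases h3 : t k = k
        · refine ⟨(x, k), hxx k le_rfl, ?_⟩
          change dist (u (x, k)) (u (z, t m)) = dist (u (x, k)) (u (x, t k)) +
            dist (u (x, t k)) (u (z, t m))
          rw [h3, dist_self, zero_add]
        · refine ⟨(x0, k), hx0 k le_rfl, ?_⟩
          change dist (u (x, k)) (u (z, t m)) = dist (u (x, k)) (u (x0, t k)) +
            dist (u (x0, t k)) (u (z, t m))
          have h4 : t k < t m := ht h2
          have h5 : k ≤ t k := hnt k
          have h6 : ((k : ℝ)) ≤ t k := by exact_mod_cast h5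
          have h7 : ((t k : ℕ) : ℝ) ≤ t m := by exact_mod_cast h4.le
          rw [hu, hu, hu, hδne _ _ _ _ (Ne.symm h1), hδne _ _ _ _ (Ne.symm h3),
            hδne _ _ _ _ h4.ne, dist_self, abs_of_nonpos (by linarith), abs_of_nonpos (by linarith),
            abs_of_nonpos (by linarith)]
          ring
      · refine ⟨(x0, m), hx0 m h2, ?_⟩
        change dist (u (x, k)) (u (z, t m)) = dist (u (x, k)) (u (x0, t m)) +
            dist (u (x0, t m)) (u (z, t m))
        rw [hu, hu, hu, hδne _ _ _ _ (Ne.symm h1), hδne _ _ _ _ (Ne.symm h1), hδeq, dist_self,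
          dist_comm x0 z]
        ring
    obtain ⟨s, hs, hsu⟩ := extend hX u (fun a => u (a.1, a.2 + 1)) (by
      rintro ⟨x, k⟩ ⟨y, l⟩
      change dist (u (x, k + 1)) (u (y, l + 1)) ≤ dist (u (x, k)) (u (y, l))
      rw [hu, hu]
      by_cases h : k = l
      · subst h; rw [hδeq, hδeq]
      · rw [hδne _ _ _ _ h, hδne _ _ _ _ (fun e => h (Nat.succ_injective e))]
        push_cast
        rw [show (k : ℝ) + 1 - (l + 1) = k - l by ring]) hanch
    obtain ⟨g, hg, hgu⟩ := extend hX (fun y : X × ℕ => u (y.1, t y.2)) (fun y => f y.2 y.1) (by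
      rintro ⟨x, k⟩ ⟨y, l⟩
      change dist (f k x) (f l y) ≤ dist (u (x, t k)) (u (y, t l))
      rw [hu]
      by_cases h : k = l
      · subst h; rw [hδeq]; exact hf _ _ _
      · rw [hδne _ _ _ _ (fun e => h (ht.injective e))]
        have h1 := hf k x x0
        have h2 := hf l x0 y
        have h3 := dist_triangle4 (f k x) (f k x0) (f l x0) (f l y)
        have h4 := dist_triangle_right (f k x0) (f l x0) x0
        have h5 : dist (f k x0) x0 + dist (f l x0) x0 ≤ |((t k : ℕ) : ℝ) - t l| := by
          rcases Nat.lt_or_gt_of_ne h with h | h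
          · have h6 := htt k l h
            rw [abs_sub_comm]
            exact h6.trans (le_abs_self _)
          · have h6 := htt l k h
            have h7 := le_abs_self (((t k : ℕ) : ℝ) - t l)
            linarith
        rw [dist_comm x0 y] at h2
        linarith) hanch2
    refine ⟨fun x => u (x, 0), s, g, fun x y => ?_, hs, hg, fun n => ⟨t n, fun x => ?_⟩⟩
    · change dist (u (x, 0)) (u (y, 0)) ≤ _
      rw [hu, hδeq]
    · have h1 : ∀ k, s^[k] (u (x, 0)) = u (x, k) := by
        intro k
        induction k with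
        | zero => rfl
        | succ k ih => rw [Function.iterate_succ_apply', ih, hsu]
      rw [h1]
      exact hgu (x, n)
  · obtain ⟨u, hu, hanch⟩ := embed hX (W := ℕ) (fun n m => if n = m then 0 else 1)
      (fun n m => by
        split_ifs
        · exact ⟨0, by simp⟩
        · exact ⟨1, by simp⟩)
      (fun n m => by split_ifs <;> norm_num)
      (fun n => if_pos rfl) (fun n m => by simp only [eq_comm])
      (fun n m l => by
        by_cases h1 : n = m
        · subst h1; simp
        · by_cases h2 : m = l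
          · subst h2; simp
          · simp only [if_neg h1, if_neg h2]; split_ifs <;> norm_num)
    refine unc_of u (fun n m h => by rw [hu, if_neg h]) fun g hg => ?_
    exact extend hX u g (fun a b => by
      rw [hu]
      by_cases h : a = b
      · subst h; simp
      · rw [if_neg h]; exact hg a b h) hanch

/-- Nice embeddings of countable spaces into the sphere. -/
theorem embedOne (hX : IsFraisseLimit ratDistOne X) [Nonempty X] {W : Type} [Countable W]
    [Nonempty W] (δ : W → W → ℝ)
    (hδ : ∀ n m, δ n m ∈ ratDist) (hδ1 : ∀ n m, δ n m ≤ 1) (hδ0 : ∀ n m, 0 ≤ δ n m)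
    (hδs : ∀ n, δ n n = 0) (hδc : ∀ n m, δ n m = δ m n)
    (hδt : ∀ n m l, δ n l ≤ δ n m + δ m l) :
    ∃ u : W → X, (∀ n m, dist (u n) (u m) = δ n m) ∧
      ∀ g : W → X, (∀ n m, dist (g n) (g m) ≤ δ n m) → ∃ G : X → X, NE G ∧ ∀ n, G (u n) = g n := by
  obtain ⟨c, hc⟩ := exists_surjective_nat W
  obtain ⟨u, hu, hext⟩ := exists_nice hX (fun i j => δ (c i) (c j)) (fun _ _ => hδ _ _)
    (fun _ _ => hδ1 _ _) (fun _ _ => hδ0 _ _) (fun _ => hδs _) (fun _ _ => hδc _ _)
    (fun _ _ _ => hδt _ _ _)
  choose code hcode using hc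
  refine ⟨fun w => u (code w), fun a b => by rw [hu, hcode, hcode], fun g hg => ?_⟩
  obtain ⟨G, hG, hGu⟩ := hext (fun i => g (c i)) fun n m => hg _ _
  exact ⟨G, hG, fun w => by rw [hGu, hcode]⟩

theorem tame_sphere (hX : IsFraisseLimit ratDistOne X) : Tame X := by
  classical
  have := hX.countable
  have hle1 : ∀ a b : X, dist a b ≤ 1 := fun a b => (mem_one_iff.mp (hX.dist_mem a b)).2
  have hrat : ∀ a b : X, dist a b ∈ ratDist := fun a b => (mem_one_iff.mp (hX.dist_mem a b)).1
  obtain ⟨x0⟩ : Nonempty X := by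
    obtain ⟨f, -⟩ := hX.universal Unit inferInstance (fun x y => by
      rw [Subsingleton.elim x y, dist_self]; exact zero_mem_one)
    exact ⟨f ()⟩
  have : Nonempty X := ⟨x0⟩
  refine ⟨?_, ?_, ?_⟩
  · obtain ⟨u, hu, hext⟩ := embedOne hX (W := X × X) (fun a b => dist a b)
      (fun a b => by rw [Prod.dist_eq]; exact rat_max (hrat _ _) (hrat _ _))
      (fun a b => by rw [Prod.dist_eq]; exact max_le (hle1 _ _) (hle1 _ _))
      (fun _ _ => dist_nonneg) (fun _ => dist_self _) (fun _ _ => dist_comm _ _)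
      (fun _ _ _ => dist_triangle _ _ _)
    obtain ⟨p, hp, hpu⟩ := hext (fun a => a.1)
      (fun a b => by rw [Prod.dist_eq]; exact le_max_left _ _)
    obtain ⟨q, hq, hqu⟩ := hext (fun a => a.2)
      (fun a b => by rw [Prod.dist_eq]; exact le_max_right _ _)
    exact ⟨fun x y => u (x, y), p, q, fun x y x' y' => by rw [hu, Prod.dist_eq], hp, hq,
      fun x y => hpu (x, y), fun x y => hqu (x, y)⟩
  · intro f hf
    let δ : X × ℕ → X × ℕ → ℝ := fun a b => if a.2 = b.2 then dist a.1 b.1 else 1
    have hδeq : ∀ x y k, δ (x, k) (y, k) = dist x y := fun x y k => if_pos rfl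
    have hδne : ∀ x y k l, k ≠ l → δ (x, k) (y, l) = 1 := fun x y k l h => if_neg h
    have hδ0 : ∀ a b, 0 ≤ δ a b := by
      rintro ⟨x, k⟩ ⟨y, l⟩
      by_cases h : k = l
      · subst h; rw [hδeq]; exact dist_nonneg
      · rw [hδne _ _ _ _ h]; norm_num
    have hδ1 : ∀ a b, δ a b ≤ 1 := by
      rintro ⟨x, k⟩ ⟨y, l⟩
      by_cases h : k = l
      · subst h; rw [hδeq]; exact hle1 _ _
      · rw [hδne _ _ _ _ h]
    obtain ⟨u, hu, hext⟩ := embedOne hX (W := X × ℕ) δ
      (by
        rintro ⟨x, k⟩ ⟨y, l⟩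
        by_cases h : k = l
        · subst h; rw [hδeq]; exact hrat _ _
        · rw [hδne _ _ _ _ h]; exact ⟨1, by simp⟩)
      hδ1 hδ0
      (by rintro ⟨x, k⟩; rw [hδeq, dist_self])
      (by
        rintro ⟨x, k⟩ ⟨y, l⟩
        by_cases h : k = l
        · subst h; rw [hδeq, hδeq, dist_comm]
        · rw [hδne _ _ _ _ h, hδne _ _ _ _ (Ne.symm h)])
      (by
        rintro ⟨x, k⟩ ⟨y, l⟩ ⟨z, m⟩
        by_cases h1 : k = l
        · subst h1
          by_cases h2 : k = m
          · subst h2; rw [hδeq, hδeq, hδeq]; exact dist_triangle _ _ _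
          · rw [hδne _ _ _ _ h2, hδne _ _ _ _ h2]
            linarith [hδ0 (x, k) (y, k)]
        · rw [hδne x y k l h1]
          linarith [hδ0 (y, l) (z, m), hδ1 (x, k) (z, m)])
    obtain ⟨s, hs, hsu⟩ := hext (fun a => u (a.1, a.2 + 1)) (by
      rintro ⟨x, k⟩ ⟨y, l⟩
      change dist (u (x, k + 1)) (u (y, l + 1)) ≤ _
      rw [hu]
      by_cases h : k = l
      · subst h; rw [hδeq, hδeq]
      · rw [hδne _ _ _ _ h]; exact hδ1 _ _)
    obtain ⟨g, hg, hgu⟩ := hext (fun y => f y.2 y.1) (by
      rintro ⟨x, k⟩ ⟨y, l⟩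
      change dist (f k x) (f l y) ≤ _
      by_cases h : k = l
      · subst h; rw [hδeq]; exact hf _ _ _
      · rw [hδne _ _ _ _ h]; exact hle1 _ _)
    refine ⟨fun x => u (x, 0), s, g, fun x y => ?_, hs, hg, fun n => ⟨n, fun x => ?_⟩⟩
    · change dist (u (x, 0)) (u (y, 0)) ≤ _
      rw [hu, hδeq]
    · have h1 : ∀ k, s^[k] (u (x, 0)) = u (x, k) := by
        intro k
        induction k with
        | zero => rfl
        | succ k ih => rw [Function.iterate_succ_apply', ih, hsu]
      rw [h1]
      exact hgu (x, n)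
  · obtain ⟨u, hu, hext⟩ := embedOne hX (W := ℕ) (fun n m => if n = m then 0 else 1)
      (fun n m => by
        split_ifs
        · exact ⟨0, by simp⟩
        · exact ⟨1, by simp⟩)
      (fun n m => by split_ifs <;> norm_num)
      (fun n m => by split_ifs <;> norm_num)
      (fun n => if_pos rfl) (fun n m => by simp only [eq_comm])
      (fun n m l => by
        by_cases h1 : n = m
        · subst h1; simp
        · by_cases h2 : m = l
          · subst h2; simp
          · simp only [if_neg h1, if_neg h2]; split_ifs <;> norm_num)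
    refine unc_of u (fun n m h => by rw [hu, if_neg h]) fun g hg => ?_
    exact hext g (fun a b => by
      by_cases h : a = b
      · subst h; simp
      · rw [if_neg h]; exact hg a b h)

end Q24.Ury
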